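import Pool.Agent.T9h44.NK.SpecC

/-! # Project NK, (ONE): flag-transitive polytopes have at most one orbit -/

set_option autoImplicit false

namespace Pool.Agent.T9h93.NK

open Pool.Agent.T9h98.DC Pool.Agent.T9h44.NK

theorem one : S_ONE := by
  intro d k P hK hF
  obtain ⟨-, hk⟩ := hK
  have hs : Subsingleton (Quotient (flagSetoid P)) := by
    refine ⟨fun a b => ?_⟩
    obtain ⟨Φ, rfl⟩ := Quotient.exists_rep a
    obtain ⟨Ψ, rfl⟩ := Quotient.exists_rep b
    exact Quotient.sound (hF Φ Ψ)
  rw [← hk]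
  exact Finite.card_le_one_iff_subsingleton.2 hs

end Pool.Agent.T9h93.NK
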