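import Pool.Agent.T9h98.NK.SpecS

/-! # Project NK, (SIM): all vertices of type S with the cosine one half, so `P` is a regular simplex -/

set_option autoImplicit false

open Set
open scoped RealInnerProductSpace

namespace Pool.Agent.T9h93.NK

open Pool.Agent.T9h98.DC Pool.Agent.T9h44.NK Pool.Agent.T9h98.NK

theorem sim (hF : S_FACES) (hR : S_REL) (hC : S_CONN) : S_SIM := by
  intro D P e hD hP hS
  obtain ⟨h1, -, -, -, h5, -, -, -, h9, -⟩ := hF (D + 1) P hP.1
  have hne : P.Nonempty := hP.2.mono interior_subset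
  obtain ⟨hPP, v0, hv0⟩ := h5 hne
  have hsym : ∀ v w, Adj P v w → Adj P w v := fun v w h => (h9 v w h).2.2.1
  have hv1 : ∀ v w, Adj P v w → Vx P v := fun v w h => (h9 v w h).1
  have hv2 : ∀ v w, Adj P v w → Vx P w := fun v w h => (h9 v w h).2.1
  have he : 0 < e := (hS v0 hv0).epos
  have hU : Uni P (1 / 2) e := by
    refine ⟨he, by norm_num, fun v y h => (hS v (hv1 v y h)).len y h, fun v y y' h => ?_⟩
    exact ((hS v (hv1 v y h.1)).cor y y' h.1 h.2.1 h.2.2.1).2
  have hadj : ∀ v w w', Adj P v w → Adj P v w' → w ≠ w' → Adj P w w' := by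
    intro v w w' h h' hww
    have hc : Cor P v w w' := ((hS v (hv1 v w h)).cor w w' h h' hww).1
    have h3 := (hR D P (1 / 2) e (by norm_num) hP hU v w w' hc).1
    have h4 : w' + (1 - 2 * (1 / 2 : ℝ)) • (w - v) = w' := by
      rw [show (1 - 2 * (1 / 2 : ℝ)) = 0 by norm_num, zero_smul, add_zero]
    rw [h4] at h3
    exact h3.2.1
  have hcard : ∀ v, Vx P v → {y | Adj P v y}.ncard = D + 1 := fun v hv => (hS v hv).num
  have hfin : ∀ v, Vx P v → {y | Adj P v y}.Finite := fun v hv =>
    Set.finite_of_ncard_pos (by rw [hcard v hv]; omega)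
  set A : Set (E (D + 1)) := insert v0 {y | Adj P v0 y} with hA
  have hv0N : v0 ∉ {y | Adj P v0 y} := fun h => h.1 rfl
  have hAfin : A.Finite := (hfin v0 hv0).insert _
  have hAcard : A.ncard = D + 2 := by
    rw [hA, Set.ncard_insert_of_notMem hv0N (hfin v0 hv0), hcard v0 hv0]
  have hAV : ∀ a ∈ A, Vx P a := by
    rintro a (rfl | ha)
    · exact hv0
    · exact hv2 _ _ ha
  have hAA : ∀ a ∈ A, ∀ b ∈ A, a ≠ b → Adj P a b := by
    rintro a (rfl | ha) b (rfl | hb) hab
    · exact absurd rfl hab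
    · exact hb
    · exact hsym _ _ ha
    · exact hadj _ _ _ ha hb hab
  have hcl : ∀ v ∈ A, ∀ w, Vx P v → Adj P v w → w ∈ A := by
    intro v hv w hvV hw
    have hsub : A \ {v} ⊆ {y | Adj P v y} := by
      rintro b ⟨hb, hbv⟩
      exact hAA v hv b hb fun h => hbv h.symm
    have hc2 : (A \ {v}).ncard = D + 1 := by
      rw [Set.ncard_sdiff_singleton_of_mem hv, hAcard]
      omega
    have heq := Set.eq_of_subset_of_ncard_le hsub (by rw [hcard v hvV, hc2]) (hfin v hvV)
    have hw2 : w ∈ {y | Adj P v y} := hw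
    rw [← heq] at hw2
    exact hw2.1
  have hall : ∀ v, Vx P v → v ∈ A := hC D P hP A ⟨v0, Set.mem_insert _ _, hv0⟩ hcl
  have hPA : P = convexHull ℝ A := by
    have h2 := (h1 P hPP).2
    have h3 : {v | Vx P v ∧ v ∈ P} = A := by
      ext v
      constructor
      · rintro ⟨h, -⟩
        exact hall v h
      · intro h
        refine ⟨hAV v h, ?_⟩
        have h4 := (hAV v h).2.subset
        exact h4 (Set.mem_singleton v)
    rw [h3] at h2
    exact h2
  have hcA : Nat.card A = D + 1 + 1 := hAcard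
  have : Finite A := hAfin
  let φ : A ≃ Fin (D + 1 + 1) := Finite.equivFinOfCardEq hcA
  refine ⟨fun i => (φ.symm i : E (D + 1)), e, he, fun i j hij => ?_, ?_⟩
  · have hne' : (φ.symm i : E (D + 1)) ≠ φ.symm j := fun h => hij (φ.symm.injective (Subtype.ext h))
    have h6 := hAA _ (φ.symm i).2 _ (φ.symm j).2 hne'
    rw [dist_comm, dist_eq_norm]
    exact (hS _ (hv1 _ _ h6)).len _ h6
  · have hr : Set.range (fun i => (φ.symm i : E (D + 1))) = A := by
      ext x
      constructor
      · rintro ⟨i, rfl⟩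
        exact (φ.symm i).2
      · intro hx
        exact ⟨φ ⟨x, hx⟩, by simp⟩
    rw [hr]
    exact hPA

end Pool.Agent.T9h93.NK
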