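import Pool.Agent.T9h47.NK.Metric

/-!
# Project NK: the base of the induction with `c < 1/5` (dimension at least 20)

`P` has unit vertices, adjacent ones with inner product `c`, the others with at most `c`, and the sum of the
vertices is `0`. Let `u_1, ..., u_N` be the vertices which are not `v` and not adjacent to `v`. Their projections
onto the complement of `v` have pairwise negative inner products, so `(N - 1)(1 - 4c) ≤ 4c`. The inner product of
`v` with the sum gives `D c ≤ N - 1` (there are at least `D` neighbours). So `D (1 - 4c) ≤ 4`.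
-/

set_option autoImplicit false

open Set Finset
open scoped RealInnerProductSpace

namespace Pool.Agent.T9h93.NK

open Pool.Agent.T9h98.DC Pool.Agent.T9h44.NK

/-- the vectors from a vertex to its neighbours span the space (helper57) -/
theorem span_nb (hC : S_CONE) {d : ℕ} {P : Set (E (d + 1))} (hP : IsPolytope P) {v : E (d + 1)} (hv : Vx P v)
    {a : E (d + 1)} (h : ∀ y, Adj P v y → ⟪y - v, a⟫ = 0) : a = 0 := by
  have h1 : ∀ x ∈ P, ⟪x - v, a⟫ = 0 := by
    intro x hx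
    obtain ⟨S, c, hS, e⟩ := hC d P v hP hv x hx
    rw [e, sum_inner]
    refine Finset.sum_eq_zero fun y hy => ?_
    rw [inner_smul_left, h y (hS y hy).1, mul_zero]
  obtain ⟨x0, hx0⟩ := hP.2
  obtain ⟨r, hr, hball⟩ := Metric.mem_nhds_iff.1 (mem_interior_iff_mem_nhds.1 hx0)
  have hx0P : x0 ∈ P := interior_subset hx0
  set ε := r / (2 * (‖a‖ + 1)) with hε
  have hn : 0 ≤ ‖a‖ := norm_nonneg a
  have hε0 : 0 < ε := by positivity
  have h2 : x0 + ε • a ∈ P := by
    apply hball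
    rw [Metric.mem_ball, dist_eq_norm, add_sub_cancel_left, norm_smul, Real.norm_eq_abs, abs_of_pos hε0, hε,
      div_mul_eq_mul_div, div_lt_iff₀ (by positivity)]
    nlinarith
  have h3 := h1 _ h2
  have h4 := h1 _ hx0P
  have h5 : x0 + ε • a - v = (x0 - v) + ε • a := by abel
  rw [h5, inner_add_left, h4, zero_add, inner_smul_left] at h3
  have h6 : ⟪a, a⟫ = 0 := by
    rcases mul_eq_zero.1 h3 with h | h
    · exfalso
      have : ε = 0 := by simpa using h
      linarith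
    · exact h
  exact inner_self_eq_zero.1 h6

/-- at least `d + 1` neighbours -/
theorem card_nb (hC : S_CONE) {d : ℕ} {P : Set (E (d + 1))} (hP : IsPolytope P) {v : E (d + 1)} (hv : Vx P v)
    (A : Finset (E (d + 1))) (hA : ∀ y, Adj P v y → y ∈ A) : d + 1 ≤ A.card := by
  let f : E (d + 1) →ₗ[ℝ] (A → ℝ) :=
    { toFun := fun a y => ⟪(y : E (d + 1)) - v, a⟫
      map_add' := fun a b => by
        funext y
        exact inner_add_right _ _ _
      map_smul' := fun r a => by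
        funext y
        simp [inner_smul_right] }
  have hf : Function.Injective f := by
    rw [← LinearMap.ker_eq_bot, LinearMap.ker_eq_bot']
    intro a ha
    refine span_nb hC hP hv fun y hy => ?_
    exact congrFun ha ⟨y, hA y hy⟩
  have h := LinearMap.finrank_le_finrank_of_injective hf
  rw [finrank_euclideanSpace_fin, Module.finrank_fintype_fun_eq_card, Fintype.card_coe] at h
  exact h

theorem imp5 (hF : S_FACES) (hC : S_CONE) {d : ℕ} (hd : 19 ≤ d) {P : Set (E (d + 1))}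
    (hP : IsPolytope P) {c : ℝ} (hc0 : 0 < c)
    (hc : c < 1 / 5) (hU : UV P) (hE : EC c P) (hPC : PC c P) (S : Finset (E (d + 1)))
    (hS : ∀ v, v ∈ S ↔ Vx P v) (hsum : ∑ v ∈ S, v = 0) : False := by
  classical
  obtain ⟨-, -, -, -, hne, -, -, -, hadj, -⟩ := hF (d + 1) P hP.1
  obtain ⟨hPP, v, hv⟩ := hne (hP.2.mono interior_subset)
  have hvS : v ∈ S := (hS v).2 hv
  have nn : ∀ u, Vx P u → ⟪u, u⟫ = 1 := fun u hu => by
    rw [real_inner_self_eq_norm_sq, hU u hu]; norm_num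
  have e0 : ∑ u ∈ S, ⟪v, u⟫ = 0 := by rw [← inner_sum, hsum, inner_zero_right]
  set A : Finset (E (d + 1)) := (S.erase v).filter (fun u => Adj P v u) with hA
  set B : Finset (E (d + 1)) := (S.erase v).filter (fun u => ¬ Adj P v u) with hB
  have hAm : ∀ u, u ∈ A ↔ Adj P v u := by
    intro u
    rw [hA, Finset.mem_filter, Finset.mem_erase]
    exact ⟨fun h => h.2, fun h => ⟨⟨h.1.symm, (hS u).2 (hadj v u h).2.1⟩, h⟩⟩
  have hBm : ∀ u, u ∈ B → Vx P u ∧ v ≠ u ∧ ¬ Adj P v u := by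
    intro u hu
    rw [hB, Finset.mem_filter, Finset.mem_erase] at hu
    exact ⟨(hS u).1 hu.1.2, hu.1.1.symm, hu.2⟩
  rw [← Finset.add_sum_erase S _ hvS, nn v hv,
    ← Finset.sum_filter_add_sum_filter_not (S.erase v) (fun u => Adj P v u), ← hA, ← hB] at e0
  have eA : ∑ u ∈ A, ⟪v, u⟫ = A.card * c := by
    rw [← nsmul_eq_mul, ← Finset.sum_const]
    exact Finset.sum_congr rfl fun u hu => hE v u ((hAm u).1 hu)
  have eB : -(B.card : ℝ) ≤ ∑ u ∈ B, ⟪v, u⟫ := by
    have h1 : ∑ _u ∈ B, (-1 : ℝ) ≤ ∑ u ∈ B, ⟪v, u⟫ := by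
      refine Finset.sum_le_sum fun u hu => ?_
      have := abs_real_inner_le_norm v u
      rw [hU v hv, hU u (hBm u hu).1, mul_one] at this
      exact (abs_le.1 this).1
    rw [Finset.sum_const, nsmul_eq_mul] at h1
    linarith
  have hcard : d + 1 ≤ A.card := card_nb hC hP hv A fun y hy => (hAm y).2 hy
  have hcard' : (20 : ℝ) ≤ A.card := by
    have : 20 ≤ A.card := by omega
    exact_mod_cast this
  have hN : 20 * c ≤ (B.card : ℝ) - 1 := by
    rw [eA] at e0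
    nlinarith
  -- the projections
  have ha : ∀ u ∈ B, ⟪v, u⟫ ≤ 2 * c - 1 := fun u hu =>
    Pool.Agent.T9h47.NK.kl hF hC hP (by linarith) hU hE hPC v u hv (hBm u hu).1 (hBm u hu).2.1
      (hBm u hu).2.2
  have hx : ∀ u w : E (d + 1), ⟪u - ⟪v, u⟫ • v, w - ⟪v, w⟫ • v⟫ = ⟪u, w⟫ - ⟪v, u⟫ * ⟪v, w⟫ := by
    intro u w
    rw [inner_sub_left, inner_sub_right, inner_sub_right, real_inner_smul_left, real_inner_smul_left,
      real_inner_smul_right, real_inner_smul_right, nn v hv, real_inner_comm v u]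
    ring
  have hZ : 0 ≤ ∑ u ∈ B, ∑ w ∈ B, (⟪u, w⟫ - ⟪v, u⟫ * ⟪v, w⟫) := by
    have h1 : (0 : ℝ) ≤ ⟪∑ u ∈ B, (u - ⟪v, u⟫ • v), ∑ w ∈ B, (w - ⟪v, w⟫ • v)⟫ :=
      real_inner_self_nonneg
    rw [sum_inner] at h1
    refine h1.trans (le_of_eq (Finset.sum_congr rfl fun u _ => ?_))
    rw [inner_sum]
    exact Finset.sum_congr rfl fun w _ => hx u w
  have hprod : ∀ u ∈ B, ∀ w ∈ B, (1 - 2 * c) ^ 2 ≤ ⟪v, u⟫ * ⟪v, w⟫ := by
    intro u hu w hw
    have h1 := ha u hu
    have h2 := ha w hw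
    nlinarith [mul_nonneg (by linarith : (0:ℝ) ≤ 2 * c - 1 - ⟪v, u⟫) (by linarith : (0:ℝ) ≤ 2 * c - 1 - ⟪v, w⟫),
      mul_nonneg (by linarith : (0:ℝ) ≤ 2 * c - 1 - ⟪v, u⟫) (by linarith : (0:ℝ) ≤ 1 - 2 * c),
      mul_nonneg (by linarith : (0:ℝ) ≤ 2 * c - 1 - ⟪v, w⟫) (by linarith : (0:ℝ) ≤ 1 - 2 * c)]
  have hrow : ∀ u ∈ B, ∑ w ∈ B, (⟪u, w⟫ - ⟪v, u⟫ * ⟪v, w⟫) ≤
      4 * c * (1 - c) - ((B.card : ℝ) - 1) * ((1 - c) * (1 - 4 * c)) := by
    intro u hu
    rw [← Finset.add_sum_erase B _ hu]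
    have h1 : ⟪u, u⟫ - ⟪v, u⟫ * ⟪v, u⟫ ≤ 4 * c * (1 - c) := by
      have := hprod u hu u hu
      rw [nn u (hBm u hu).1]
      nlinarith
    have h2 : ∑ w ∈ B.erase u, (⟪u, w⟫ - ⟪v, u⟫ * ⟪v, w⟫) ≤
        ∑ _w ∈ B.erase u, (-((1 - c) * (1 - 4 * c))) := by
      refine Finset.sum_le_sum fun w hw => ?_
      have hwB := Finset.mem_of_mem_erase hw
      have h3 := hprod u hu w hwB
      have h4 := hPC u w (hBm u hu).1 (hBm w hwB).1 (Finset.ne_of_mem_erase hw).symm
      nlinarith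
    rw [Finset.sum_const, nsmul_eq_mul, Finset.card_erase_of_mem hu,
      Nat.cast_sub (Finset.card_pos.2 ⟨u, hu⟩)] at h2
    push_cast at h2
    linarith
  have hall : (0 : ℝ) ≤ B.card * (4 * c * (1 - c) - ((B.card : ℝ) - 1) * ((1 - c) * (1 - 4 * c))) := by
    refine hZ.trans ?_
    rw [← nsmul_eq_mul, ← Finset.sum_const]
    exact Finset.sum_le_sum hrow
  have hB0 : (0 : ℝ) < B.card := by nlinarith
  have h5 : 0 ≤ 4 * c * (1 - c) - ((B.card : ℝ) - 1) * ((1 - c) * (1 - 4 * c)) :=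
    nonneg_of_mul_nonneg_right hall hB0
  have h6 : 0 ≤ (1 - c) * (4 * c - ((B.card : ℝ) - 1) * (1 - 4 * c)) := by nlinarith
  have h7 : 0 ≤ 4 * c - ((B.card : ℝ) - 1) * (1 - 4 * c) := nonneg_of_mul_nonneg_right h6 (by linarith)
  nlinarith

end Pool.Agent.T9h93.NK
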