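import Pool.Agent.T9h93.NK.Imp5
import Pool.Agent.T9h57.NK.L2

/-!
# Project NK: the base of the induction with `c < 1/4`, `PT 2` (dimension at least 22)

`P` has unit vertices, adjacent ones with inner product `c`, and `H` is transitive on the pairs (vertex, edge). The
neighbours `y` of a vertex `v` have the projections `x_y = y - c v`, of norm `1 - c²`; the sum of the `x_y` is `0`;
`⟪x_y, x_z⟫ = c (1 - c)` if `y, z` are adjacent and `≤ - (1 - c)²` if they are not. With `m` = the number of the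
neighbours of `v` not adjacent to a fixed one: `m (1 - 3 c) ≤ 1 + c` and `r c ≤ (m - 1)(1 + c)`, `r` = the number of the
neighbours of `v` adjacent to it. So there are at most 21 neighbours.
-/

set_option autoImplicit false

open Set Finset
open scoped RealInnerProductSpace

namespace Pool.Agent.T9h93.NK

open Pool.Agent.T9h98.DC Pool.Agent.T9h44.NK
open Pool.Agent.T9h57.NK (trans_adj adj_map)

theorem arith5 {c : ℝ} (hc0 : 0 < c) (hc : c < 1 / 4) (r m : ℕ) (hrm : 21 ≤ r + m)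
    (h1 : (r : ℝ) * c ≤ ((m : ℝ) - 1) * (1 + c)) (h2 : (m : ℝ) * (1 - 3 * c) ≤ 1 + c) : False := by
  have hm : m < 5 := by
    by_contra hcon
    push Not at hcon
    have h3 : (5 : ℝ) ≤ m := by exact_mod_cast hcon
    nlinarith
  have hr : (21 : ℝ) ≤ (r : ℝ) + m := by exact_mod_cast hrm
  interval_cases m
  · push_cast at *
    nlinarith
  · push_cast at *
    nlinarith
  · push_cast at *
    nlinarith
  · push_cast at *
    nlinarith
  · push_cast at *
    nlinarith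

theorem nb5 (hF : S_FACES) (hC : S_CONE) {d : ℕ} (hd : 21 ≤ d) {P : Set (E (d + 1))}
    {H : Subgroup (E (d + 1) ≃ₗᵢ[ℝ] E (d + 1))}
    (hP : IsPolytope P) (hH : Pres H P) {c : ℝ} (hc0 : 0 < c)
    (hc : c < 1 / 4) (hU : UV P) (hE : EC c P) (hPC : PC c P) (hT : PT 2 H P) : False := by
  classical
  obtain ⟨-, -, hfin, -, hne, -, -, -, hadj, -⟩ := hF (d + 1) P hP.1
  obtain ⟨hPP, v, hv⟩ := hne (hP.2.mono interior_subset)
  have nn : ∀ u, Vx P u → ⟪u, u⟫ = 1 := fun u hu => by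
    rw [real_inner_self_eq_norm_sq, hU u hu]; norm_num
  obtain ⟨A, hA⟩ : ∃ A : Finset (E (d + 1)), A = hfin.toFinset.filter (fun u => Adj P v u) := ⟨_, rfl⟩
  have hAm : ∀ u, u ∈ A ↔ Adj P v u := by
    intro u
    rw [hA, Finset.mem_filter, Set.Finite.mem_toFinset]
    exact ⟨fun h => h.2, fun h => ⟨(hadj v u h).2.1, h⟩⟩
  have hAV : ∀ u ∈ A, Vx P u := fun u hu => (hadj v u ((hAm u).1 hu)).2.1
  have hvA : ∀ u ∈ A, ⟪v, u⟫ = c := fun u hu => hE v u ((hAm u).1 hu)
  have hcard : d + 1 ≤ A.card := card_nb hC hP hv A fun y hy => (hAm y).2 hy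
  obtain ⟨u, hu⟩ : A.Nonempty := Finset.card_pos.1 (by omega)
  -- the inner products of the projections
  have hx : ∀ y ∈ A, ∀ z ∈ A, ⟪y - c • v, z - c • v⟫ = ⟪y, z⟫ - c ^ 2 := by
    intro y hy z hz
    rw [inner_sub_left, inner_sub_right, inner_sub_right, real_inner_smul_left, real_inner_smul_left,
      real_inner_smul_right, real_inner_smul_right, nn v hv, real_inner_comm v y, hvA y hy, hvA z hz]
    ring
  obtain ⟨σ, hσ⟩ : ∃ σ : E (d + 1), σ = ∑ w ∈ A, (w - c • v) := ⟨_, rfl⟩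
  have hperm : ∀ h ∈ H, h v = v → h σ = σ := by
    intro h hh hv'
    have hm : ∀ w ∈ A, h w ∈ A := fun w hw => by
      have := adj_map hH hh ((hAm w).1 hw)
      rw [hv'] at this
      exact (hAm _).2 this
    rw [hσ, map_sum]
    refine Finset.sum_bij (fun w _ => h w) hm (fun a _ b _ hab => h.injective hab) ?_ ?_
    · intro b hb
      have hinv : h⁻¹ ∈ H := H.inv_mem hh
      have h1 := adj_map hH hinv ((hAm b).1 hb)
      have h2 : (h⁻¹) v = v := by
        change h.symm v = v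
        conv_lhs => rw [← hv']
        exact h.symm_apply_apply v
      rw [h2] at h1
      refine ⟨h⁻¹ b, (hAm _).2 h1, ?_⟩
      change h (h.symm b) = b
      exact h.apply_symm_apply b
    · intro w hw
      rw [map_sub, map_smul, hv']
  have hk : ∀ y ∈ A, ∀ z ∈ A, ⟪z - c • v, σ⟫ = ⟪y - c • v, σ⟫ := by
    intro y hy z hz
    obtain ⟨h, hh, h1, h2⟩ := trans_adj hF hP hH hT ((hAm y).1 hy) ((hAm z).1 hz)
    have h3 : h (y - c • v) = z - c • v := by rw [map_sub, map_smul, h1, h2]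
    have h4 := hperm h hh h1
    calc ⟪z - c • v, σ⟫ = ⟪h (y - c • v), h σ⟫ := by rw [h3, h4]
      _ = ⟪y - c • v, σ⟫ := h.inner_map_map _ _
  have hvσ : ⟪v, σ⟫ = 0 := by
    rw [hσ, inner_sum]
    refine Finset.sum_eq_zero fun w hw => ?_
    rw [inner_sub_right, real_inner_smul_right, nn v hv, hvA w hw]
    ring
  have hσ0 : σ = 0 := by
    obtain ⟨k, hk'⟩ : ∃ k : ℝ, k = ⟪u - c • v, σ⟫ := ⟨_, rfl⟩
    have hyσ : ∀ y ∈ A, ⟪y, σ⟫ = k := by
      intro y hy
      have := hk u hu y hy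
      rw [inner_sub_left, real_inner_smul_left, hvσ, mul_zero, sub_zero, ← hk'] at this
      exact this
    have hc1 : (1 : ℝ) - c ≠ 0 := by linarith
    have h1 : σ + (k / (1 - c)) • v = 0 := by
      refine span_nb hC hP hv fun y hy => ?_
      have hyA := (hAm y).2 hy
      rw [inner_sub_left, inner_add_right, inner_add_right, real_inner_smul_right, real_inner_smul_right,
        nn v hv, hvσ, hyσ y hyA, real_inner_comm v y, hvA y hyA]
      field_simp
      ring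
    have h2 : ⟪v, σ + (k / (1 - c)) • v⟫ = 0 := by rw [h1, inner_zero_right]
    rw [inner_add_right, real_inner_smul_right, nn v hv, hvσ, zero_add, mul_one] at h2
    rw [h2, zero_smul, add_zero] at h1
    exact h1
  have hsum0 : ∑ w ∈ A, (⟪u, w⟫ - c ^ 2) = 0 := by
    have h1 : ⟪u - c • v, σ⟫ = 0 := by rw [hσ0, inner_zero_right]
    rw [hσ, inner_sum] at h1
    rw [← h1]
    exact Finset.sum_congr rfl fun w hw => (hx u hu w hw).symm
  -- neighbours of v adjacent / not adjacent to u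
  obtain ⟨R, hR⟩ : ∃ R : Finset (E (d + 1)), R = (A.erase u).filter (fun w => Adj P u w) := ⟨_, rfl⟩
  obtain ⟨M, hM⟩ : ∃ M : Finset (E (d + 1)), M = (A.erase u).filter (fun w => ¬ Adj P u w) := ⟨_, rfl⟩
  have hRm : ∀ w ∈ R, w ∈ A ∧ Adj P u w := by
    intro w hw
    rw [hR, Finset.mem_filter, Finset.mem_erase] at hw
    exact ⟨hw.1.2, hw.2⟩
  have hMm : ∀ w ∈ M, w ∈ A ∧ u ≠ w ∧ ¬ Adj P u w := by
    intro w hw
    rw [hM, Finset.mem_filter, Finset.mem_erase] at hw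
    exact ⟨hw.1.2, hw.1.1.symm, hw.2⟩
  have hRM : R.card + M.card + 1 = A.card := by
    have h1 := Finset.card_filter_add_card_filter_not (s := A.erase u) (fun w => Adj P u w)
    rw [← hR, ← hM, Finset.card_erase_of_mem hu] at h1
    omega
  have hlow : ∀ w ∈ M, -(1 - c ^ 2) ≤ ⟪u, w⟫ - c ^ 2 := by
    intro w hw
    have hwA := (hMm w hw).1
    have h1 : (0 : ℝ) ≤ ⟪(u - c • v) + (w - c • v), (u - c • v) + (w - c • v)⟫ :=
      real_inner_self_nonneg
    rw [inner_add_left, inner_add_right, inner_add_right, hx u hu u hu, hx u hu w hwA, hx w hwA u hu,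
      hx w hwA w hwA, nn u (hAV u hu), nn w (hAV w hwA), real_inner_comm u w] at h1
    linarith
  have hup : ∀ w ∈ M, ⟪u, w⟫ - c ^ 2 ≤ -(1 - c) ^ 2 := by
    intro w hw
    obtain ⟨hwA, hne', hna⟩ := hMm w hw
    have := Pool.Agent.T9h47.NK.kl hF hC hP (by linarith) hU hE hPC u w (hAV u hu) (hAV w hwA) hne' hna
    nlinarith
  obtain ⟨r, hr⟩ : ∃ r : ℝ, r = R.card := ⟨_, rfl⟩
  obtain ⟨m, hm⟩ : ∃ m : ℝ, m = M.card := ⟨_, rfl⟩
  have hm0 : 0 ≤ m := by rw [hm]; positivity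
  have hbal : r * c ≤ (m - 1) * (1 + c) := by
    rw [← Finset.add_sum_erase A _ hu, nn u (hAV u hu),
      ← Finset.sum_filter_add_sum_filter_not (A.erase u) (fun w => Adj P u w), ← hR, ← hM] at hsum0
    have e1 : ∑ w ∈ R, (⟪u, w⟫ - c ^ 2) = r * (c - c ^ 2) := by
      rw [hr, ← nsmul_eq_mul, ← Finset.sum_const]
      exact Finset.sum_congr rfl fun w hw => by rw [hE u w (hRm w hw).2]
    have e2 : m * (-(1 - c ^ 2)) ≤ ∑ w ∈ M, (⟪u, w⟫ - c ^ 2) := by
      rw [hm, ← nsmul_eq_mul, ← Finset.sum_const]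
      exact Finset.sum_le_sum hlow
    rw [e1] at hsum0
    have h3 : (1 - c) * (r * c) ≤ (1 - c) * ((m - 1) * (1 + c)) := by nlinarith
    exact le_of_mul_le_mul_left h3 (by linarith)
  have hstar : m * (1 - 3 * c) ≤ 1 + c := by
    rcases hm0.eq_or_lt with h0 | hmpos
    · rw [← h0]
      linarith
    obtain ⟨Y, hY⟩ : ∃ Y : E (d + 1), Y = ∑ w ∈ M, (w - c • v) := ⟨_, rfl⟩
    have hT1 : ⟪u - c • v, Y⟫ ≤ -(m * (1 - c) ^ 2) := by
      rw [hY, inner_sum, hm, ← mul_neg, ← nsmul_eq_mul, ← Finset.sum_const]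
      refine Finset.sum_le_sum fun w hw => ?_
      rw [hx u hu w (hMm w hw).1]
      exact hup w hw
    have hT2 : ⟪Y, Y⟫ ≤ m * ((1 - c ^ 2) + (m - 1) * (c - c ^ 2)) := by
      have h1 : ⟪Y, Y⟫ = ∑ w ∈ M, ∑ w' ∈ M, (⟪w, w'⟫ - c ^ 2) := by
        rw [hY, sum_inner]
        refine Finset.sum_congr rfl fun w hw => ?_
        rw [inner_sum]
        exact Finset.sum_congr rfl fun w' hw' => hx w (hMm w hw).1 w' (hMm w' hw').1
      rw [h1]
      have h2 : ∀ w ∈ M, ∑ w' ∈ M, (⟪w, w'⟫ - c ^ 2) ≤ (1 - c ^ 2) + (m - 1) * (c - c ^ 2) := by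
        intro w hw
        rw [← Finset.add_sum_erase M _ hw, nn w (hAV w (hMm w hw).1)]
        have h3 : ∑ w' ∈ M.erase w, (⟪w, w'⟫ - c ^ 2) ≤ ∑ _w' ∈ M.erase w, (c - c ^ 2) := by
          refine Finset.sum_le_sum fun w' hw' => ?_
          have hw'M := Finset.mem_of_mem_erase hw'
          have := hPC w w' (hAV w (hMm w hw).1) (hAV w' (hMm w' hw'M).1) (Finset.ne_of_mem_erase hw').symm
          linarith
        rw [Finset.sum_const, nsmul_eq_mul, Finset.card_erase_of_mem hw,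
          Nat.cast_sub (Finset.card_pos.2 ⟨w, hw⟩), ← hm] at h3
        push_cast at h3
        linarith
      calc ∑ w ∈ M, ∑ w' ∈ M, (⟪w, w'⟫ - c ^ 2) ≤ ∑ _w ∈ M, ((1 - c ^ 2) + (m - 1) * (c - c ^ 2)) :=
            Finset.sum_le_sum h2
        _ = m * ((1 - c ^ 2) + (m - 1) * (c - c ^ 2)) := by rw [Finset.sum_const, nsmul_eq_mul, ← hm]
    have hZ : (0 : ℝ) ≤ ⟪(m * (1 - c) ^ 2) • (u - c • v) + (1 - c ^ 2) • Y,
        (m * (1 - c) ^ 2) • (u - c • v) + (1 - c ^ 2) • Y⟫ := real_inner_self_nonneg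
    have hZ2 : ⟪(m * (1 - c) ^ 2) • (u - c • v) + (1 - c ^ 2) • Y,
        (m * (1 - c) ^ 2) • (u - c • v) + (1 - c ^ 2) • Y⟫ =
        (m * (1 - c) ^ 2) ^ 2 * (1 - c ^ 2) + 2 * (m * (1 - c) ^ 2) * (1 - c ^ 2) * ⟪u - c • v, Y⟫ +
          (1 - c ^ 2) ^ 2 * ⟪Y, Y⟫ := by
      rw [inner_add_left, inner_add_right, inner_add_right, real_inner_smul_left, real_inner_smul_left,
        real_inner_smul_left, real_inner_smul_left, real_inner_smul_right, real_inner_smul_right,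
        real_inner_smul_right, real_inner_smul_right, hx u hu u hu, nn u (hAV u hu),
        real_inner_comm (u - c • v) Y]
      ring
    rw [hZ2] at hZ
    have hp : 0 < 1 - c := by linarith
    have hq : 0 < 1 - c ^ 2 := by nlinarith
    have hA1 : 2 * (m * (1 - c) ^ 2) * (1 - c ^ 2) * ⟪u - c • v, Y⟫ ≤
        2 * (m * (1 - c) ^ 2) * (1 - c ^ 2) * (-(m * (1 - c) ^ 2)) :=
      mul_le_mul_of_nonneg_left hT1 (by positivity)
    have hA2 : (1 - c ^ 2) ^ 2 * ⟪Y, Y⟫ ≤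
        (1 - c ^ 2) ^ 2 * (m * ((1 - c ^ 2) + (m - 1) * (c - c ^ 2))) :=
      mul_le_mul_of_nonneg_left hT2 (by positivity)
    have hfac : 0 ≤ (m * (1 - c ^ 2) * (1 - c) ^ 2) * (1 + c - m * (1 - 3 * c)) := by
      have e : (m * (1 - c ^ 2) * (1 - c) ^ 2) * (1 + c - m * (1 - 3 * c)) =
          (m * (1 - c) ^ 2) ^ 2 * (1 - c ^ 2) +
          2 * (m * (1 - c) ^ 2) * (1 - c ^ 2) * (-(m * (1 - c) ^ 2)) +
          (1 - c ^ 2) ^ 2 * (m * ((1 - c ^ 2) + (m - 1) * (c - c ^ 2))) := by ring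
      rw [e]
      linarith
    have h5 := nonneg_of_mul_nonneg_right hfac (by positivity)
    linarith
  refine arith5 hc0 hc R.card M.card (by omega) ?_ ?_
  · rw [← hr, ← hm]
    exact hbal
  · rw [← hm]
    exact hstar

end Pool.Agent.T9h93.NK
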